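import Pool.Agent.Run7.h292.BL.Defs

/-!
Project BL, piece MOM2: the sampled digraphs are nearly Eulerian.
-/

set_option autoImplicit false

namespace Pool.Agent.Run7.h459.BL

open Finset Classical

/-- cross terms vanish by resampling one coordinate -/
theorem cross {V : Type} [Fintype V] {m : ℕ} (a : V → V → ℝ) (ha0 : ∀ u, a u u = 0)
    (hs : ∀ u, ∑ v, a u v = 0) (i j k : Fin m) (hjk : j ≠ k) :
    ∑ φ : Fin m → V, a (φ i) (φ j) * a (φ i) (φ k) = 0 := by
  by_cases hij : i = j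
  · subst hij
    simp [ha0]
  by_cases hik : i = k
  · subst hik
    simp [ha0]
  rw [← (Equiv.funSplitAt j V).symm.sum_comp, Fintype.sum_prod_type, Finset.sum_comm]
  refine Finset.sum_eq_zero fun ψ _ => ?_
  have key : ∀ u : V, a (((Equiv.funSplitAt j V).symm (u, ψ)) i)
      (((Equiv.funSplitAt j V).symm (u, ψ)) j) * a (((Equiv.funSplitAt j V).symm (u, ψ)) i)
      (((Equiv.funSplitAt j V).symm (u, ψ)) k) =
      a (ψ ⟨i, hij⟩) u * a (ψ ⟨i, hij⟩) (ψ ⟨k, hjk.symm⟩) := by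
    intro u
    simp [Equiv.funSplitAt, Equiv.piSplitAt, hij, hjk.symm]
  simp_rw [key]
  rw [← Finset.sum_mul, hs, zero_mul]

theorem second {V : Type} [Fintype V] (m : ℕ) (a : V → V → ℝ) (ha0 : ∀ u, a u u = 0)
    (ha1 : ∀ u v, a u v ^ 2 ≤ 1) (hs : ∀ u, ∑ v, a u v = 0) :
    ∑ φ : Fin m → V, ∑ i, (∑ j, a (φ i) (φ j)) ^ 2 ≤
      (m : ℝ) ^ 2 * (Fintype.card V : ℝ) ^ m := by
  have h1 : ∀ i : Fin m, ∑ φ : Fin m → V, (∑ j, a (φ i) (φ j)) ^ 2 ≤
      (m : ℝ) * (Fintype.card V : ℝ) ^ m := by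
    intro i
    have h2 : ∑ φ : Fin m → V, (∑ j, a (φ i) (φ j)) ^ 2 =
        ∑ j : Fin m, ∑ φ : Fin m → V, a (φ i) (φ j) ^ 2 := by
      calc ∑ φ : Fin m → V, (∑ j, a (φ i) (φ j)) ^ 2
          = ∑ φ : Fin m → V, ∑ j, ∑ k, a (φ i) (φ j) * a (φ i) (φ k) := by
            refine Finset.sum_congr rfl fun φ _ => ?_
            rw [sq, Finset.sum_mul_sum]
        _ = ∑ j, ∑ φ : Fin m → V, ∑ k, a (φ i) (φ j) * a (φ i) (φ k) := Finset.sum_comm
        _ = ∑ j, ∑ k, ∑ φ : Fin m → V, a (φ i) (φ j) * a (φ i) (φ k) :=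
            Finset.sum_congr rfl fun j _ => Finset.sum_comm
        _ = ∑ j : Fin m, ∑ φ : Fin m → V, a (φ i) (φ j) ^ 2 := by
            refine Finset.sum_congr rfl fun j _ => ?_
            rw [Finset.sum_eq_single j]
            · exact Finset.sum_congr rfl fun φ _ => (sq _).symm
            · intro k _ hk
              exact cross a ha0 hs i j k hk.symm
            · intro h
              exact absurd (Finset.mem_univ j) h
    rw [h2]
    calc ∑ j : Fin m, ∑ φ : Fin m → V, a (φ i) (φ j) ^ 2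
        ≤ ∑ j : Fin m, ∑ φ : Fin m → V, (1 : ℝ) :=
          Finset.sum_le_sum fun j _ => Finset.sum_le_sum fun φ _ => ha1 _ _
      _ = (m : ℝ) * (Fintype.card V : ℝ) ^ m := by
          simp [Finset.card_univ]
  rw [Finset.sum_comm]
  calc ∑ i : Fin m, ∑ φ : Fin m → V, (∑ j, a (φ i) (φ j)) ^ 2
      ≤ ∑ i : Fin m, (m : ℝ) * (Fintype.card V : ℝ) ^ m := Finset.sum_le_sum fun i _ => h1 i
    _ = (m : ℝ) ^ 2 * (Fintype.card V : ℝ) ^ m := by
        simp [Finset.card_univ]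
        ring

theorem first {V : Type} [Fintype V] (m : ℕ) (a : V → V → ℝ) (ha0 : ∀ u, a u u = 0)
    (ha1 : ∀ u v, a u v ^ 2 ≤ 1) (hs : ∀ u, ∑ v, a u v = 0) :
    ∑ φ : Fin m → V, ∑ i, |∑ j, a (φ i) (φ j)| ≤
      (m : ℝ) * Real.sqrt m * (Fintype.card V : ℝ) ^ m := by
  have hS := second m a ha0 ha1 hs
  have hcs := sq_sum_le_card_mul_sum_sq (s := (Finset.univ : Finset ((Fin m → V) × Fin m)))
    (f := fun p => |∑ j, a (p.1 p.2) (p.1 j)|)
  rw [Fintype.sum_prod_type, Fintype.sum_prod_type] at hcs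
  simp only [sq_abs, Finset.card_univ, Fintype.card_prod, Fintype.card_fun, Fintype.card_fin,
    Nat.cast_mul, Nat.cast_pow] at hcs
  have hnn : 0 ≤ (Fintype.card V : ℝ) ^ m := by positivity
  have h2 : (∑ φ : Fin m → V, ∑ i, |∑ j, a (φ i) (φ j)|) ^ 2 ≤
      ((m : ℝ) * Real.sqrt m * (Fintype.card V : ℝ) ^ m) ^ 2 := by
    refine hcs.trans ?_
    have h3 : ((m : ℝ) * Real.sqrt m * (Fintype.card V : ℝ) ^ m) ^ 2 =
        ((Fintype.card V : ℝ) ^ m * m) * ((m : ℝ) ^ 2 * (Fintype.card V : ℝ) ^ m) := by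
      rw [mul_pow, mul_pow, Real.sq_sqrt (Nat.cast_nonneg m)]
      ring
    rw [h3]
    exact mul_le_mul_of_nonneg_left hS (by positivity)
  exact (pow_le_pow_iff_left₀ (by positivity) (by positivity) two_ne_zero).mp h2

open Pool.Agent.Run7.h292.BL in
theorem t_MOM2 : StMom2 := by
  intro V _ _ A m hirr hanti heul
  set a : V → V → ℝ := fun u v => (if A u v then 1 else 0) - (if A v u then 1 else 0) with ha
  have ha0 : ∀ u, a u u = 0 := by
    intro u
    simp [ha]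
  have ha1 : ∀ u v, a u v ^ 2 ≤ 1 := by
    intro u v
    by_cases h1 : A u v
    · have h2 := hanti u v h1
      simp [ha, h1, h2]
    · by_cases h2 : A v u
      · simp [ha, h1, h2]
      · simp [ha, h1, h2]
  have hs : ∀ u, ∑ v, a u v = 0 := by
    intro u
    have h := heul u
    rw [Finset.card_filter, Finset.card_filter] at h
    have h' : (((∑ v, if A v u then 1 else 0 : ℕ)) : ℝ) =
        ((∑ v, if A u v then 1 else 0 : ℕ) : ℝ) := by exact_mod_cast h
    push_cast at h'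
    simp only [ha, Finset.sum_sub_distrib]
    rw [h', sub_self]
  have hd : ∀ (φ : Fin m → V) (i : Fin m),
      dO (pull A φ) i - dI (pull A φ) i = ∑ j, a (φ i) (φ j) := by
    intro φ i
    simp only [dO, dI, pull, Finset.card_filter, ha, Finset.sum_sub_distrib]
    push_cast
    rfl
  simp_rw [hd]
  exact first m a ha0 ha1 hs

end Pool.Agent.Run7.h459.BL
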